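import Pool.Agent.Helper5.SR.St4

set_option autoImplicit false

namespace Pool.Agent.Helper42.SR

open Complex MeasureTheory Set Metric Filter Topology
open scoped Real
open Helper5.SR Pool.Agent.Helper51.LT
open Pool.Agent.Helper60.Rel (LH tc)

theorem coe_pt (θ t : ℝ) (M L q i : ℕ) :
    exp (t * I) ^ M * ((1 + exp (-(θ * I)) * exp (t * I)) / 2) ^ (2 * q) *
        (exp (t * I) ^ (M + L + q + i))⁻¹
      = exp (-(q * θ * I)) * ((exp (t * I) ^ L)⁻¹ *
        (Real.cos ((t - θ) / 2) ^ (2 * q) : ℝ) * exp (-(i * t * I))) := by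
  have hz : exp (t * I) ≠ 0 := exp_ne_zero _
  have h1 : (1 + exp (-(θ * I)) * exp (t * I)) / 2 =
      exp (((t - θ) / 2 : ℂ) * I) * Complex.cos ((t - θ) / 2) := by
    have e1 : exp (-(θ * I)) * exp (t * I) = exp (((t - θ) / 2 : ℂ) * I) * exp (((t - θ) / 2 : ℂ) * I) := by
      rw [← exp_add, ← exp_add]; congr 1; ring
    have e2 : exp (((t - θ) / 2 : ℂ) * I) * exp (-((t - θ) / 2 : ℂ) * I) = 1 := by
      rw [← exp_add, ← exp_zero]; congr 1; ring
    rw [Complex.cos, e1]
    linear_combination (-1 / 2 : ℂ) * e2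
  have h2 : (exp (((t - θ) / 2 : ℂ) * I)) ^ (2 * q) = exp (-(q * θ * I)) * exp (t * I) ^ q := by
    rw [← exp_nat_mul, ← exp_nat_mul, ← exp_add]
    congr 1
    push_cast
    ring
  have h3 : exp (-(i * t * I)) = (exp (t * I) ^ i)⁻¹ := by
    rw [← exp_nat_mul, ← exp_neg]
    congr 1
    ring
  have h4 : ((Real.cos ((t - θ) / 2) ^ (2 * q) : ℝ) : ℂ) = Complex.cos ((t - θ) / 2) ^ (2 * q) := by
    push_cast
    rfl
  rw [h1, mul_pow, h2, h3, h4]
  have hM : exp (t * I) ^ (M + L + q + i) = exp (t * I) ^ M * exp (t * I) ^ L * exp (t * I) ^ q *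
      exp (t * I) ^ i := by
    rw [pow_add, pow_add, pow_add]
  rw [hM]
  have a1 : exp (t * I) ^ M ≠ 0 := pow_ne_zero _ hz
  have a2 : exp (t * I) ^ L ≠ 0 := pow_ne_zero _ hz
  have a3 : exp (t * I) ^ q ≠ 0 := pow_ne_zero _ hz
  have a4 : exp (t * I) ^ i ≠ 0 := pow_ne_zero _ hz
  field_simp

theorem hCoe (hTcf : StTcf) (hTcd : StTcd) : StCoe := by
  intro m d G u p M L q θ e J hd hG hu i
  -- the explicit derivative
  set U : ℂ → ℂ := fun z => 1 / 2000 * deriv G z * z ^ M * (p.eval z *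
    ((m + 1 : ℂ)⁻¹ * ∑ l ∈ J, e l * ((1 + exp (-(θ l * I)) * z) / 2) ^ (2 * q))) with hU
  have hder : ∀ z ∈ ball (0 : ℂ) (1 + d), deriv u z = U z := fun z hz => (hu z hz).deriv
  have hG' : DifferentiableOn ℂ (deriv G) (ball 0 (1 + d)) := hG.deriv isOpen_ball
  have hUd : DifferentiableOn ℂ U (ball 0 (1 + d)) := by
    have hp : DifferentiableOn ℂ (fun z : ℂ => p.eval z) (ball 0 (1 + d)) :=
      p.differentiable.differentiableOn
    have hs : DifferentiableOn ℂ (fun z : ℂ => ∑ l ∈ J, e l *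
        ((1 + exp (-(θ l * I)) * z) / 2) ^ (2 * q)) (ball 0 (1 + d)) := by
      apply Differentiable.differentiableOn
      fun_prop
    have hz : DifferentiableOn ℂ (fun z : ℂ => z ^ M) (ball 0 (1 + d)) := by
      apply Differentiable.differentiableOn
      fun_prop
    exact ((hG'.const_mul (1 / 2000 : ℂ)).mul hz).mul (hp.mul (hs.const_mul _))
  have hu'd : DifferentiableOn ℂ (deriv u) (ball 0 (1 + d)) := hUd.congr hder
  have hsub : closedBall (0 : ℂ) 1 ⊆ ball 0 (1 + d) := closedBall_subset_ball (by linarith)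
  have hidx : M + L + q + 1 + i = (M + L + q + i) + 1 := by ring
  have h1 := hTcd.1 u (M + L + q + i)
  have h2 := hTcf (deriv u) 1 (M + L + q + i) one_pos (hu'd.mono hsub) ⟨1 + d, by linarith, hu'd⟩
  -- the continuous factor
  set φ : ℝ → ℂ := fun t => deriv G (exp (t * I)) * p.eval (exp (t * I)) * (exp (t * I) ^ L)⁻¹ with hφ
  have hmem : ∀ t : ℝ, exp (t * I) ∈ ball (0 : ℂ) (1 + d) := by
    intro t
    rw [mem_ball_zero_iff, Complex.norm_exp_ofReal_mul_I]
    linarith
  have hcexp : Continuous (fun t : ℝ => exp (t * I)) := by fun_prop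
  have hcφ : Continuous φ := by
    have c1 : Continuous (fun t : ℝ => deriv G (exp (t * I))) :=
      hG'.continuousOn.comp_continuous hcexp hmem
    have c2 : Continuous (fun t : ℝ => p.eval (exp (t * I))) := p.continuous.comp hcexp
    have c3 : Continuous (fun t : ℝ => (exp (t * I) ^ L)⁻¹) :=
      (hcexp.pow L).inv₀ (fun t => pow_ne_zero _ (exp_ne_zero _))
    exact (c1.mul c2).mul c3
  -- the summands
  set F : Fin (m + 1) → ℝ → ℂ := fun l t =>
    φ t * (Real.cos ((t - θ l) / 2) ^ (2 * q) : ℝ) * exp (-(i * t * I)) with hF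
  have hcF : ∀ l, Continuous (F l) := by
    intro l
    have c1 : Continuous (fun t : ℝ => ((Real.cos ((t - θ l) / 2) ^ (2 * q) : ℝ) : ℂ)) := by
      fun_prop
    have c2 : Continuous (fun t : ℝ => exp (-(i * t * I))) := by fun_prop
    exact (hcφ.mul c1).mul c2
  have hper : ∀ l, Function.Periodic (F l) (2 * π) := by
    intro l t
    have e1 : exp (((t + 2 * π : ℝ) : ℂ) * I) = exp (t * I) := by
      have : ((t + 2 * π : ℝ) : ℂ) * I = t * I + 2 * π * I := by push_cast; ring
      rw [this, exp_add, exp_two_pi_mul_I, mul_one]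
    have e2 : Real.cos ((t + 2 * π - θ l) / 2) ^ (2 * q) = Real.cos ((t - θ l) / 2) ^ (2 * q) := by
      have : (t + 2 * π - θ l) / 2 = (t - θ l) / 2 + π := by ring
      rw [this, Real.cos_add_pi, pow_mul, pow_mul, neg_sq]
    have e3 : exp (-(i * ((t + 2 * π : ℝ) : ℂ) * I)) = exp (-(i * t * I)) := by
      have a : ∀ s : ℝ, exp (-(i * s * I)) = (exp (s * I) ^ i)⁻¹ := by
        intro s
        rw [← exp_nat_mul, ← exp_neg]
        congr 1
        ring
      rw [a, a, e1]
    simp only [hF, hφ]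
    rw [e1, e2, e3]
  have hshift : ∀ l, ∫ t in (0 : ℝ)..(2 * π), F l t = ∫ t in (θ l - π)..(θ l + π), F l t := by
    intro l
    have := (hper l).intervalIntegral_add_eq (0 : ℝ) (θ l - π)
    rw [zero_add] at this
    rw [this]
    congr 1
    ring
  have hint : (∫ t in (0 : ℝ)..(2 * π), deriv u (circleMap 0 1 t) *
      (circleMap 0 1 t ^ (M + L + q + i))⁻¹) =
      1 / 2000 * (m + 1 : ℂ)⁻¹ * ∑ l ∈ J, e l * (exp (-(q * θ l * I)) *
      ∫ t in (θ l - π)..(θ l + π), F l t) := by
    have hpt : ∀ t : ℝ, deriv u (circleMap 0 1 t) * (circleMap 0 1 t ^ (M + L + q + i))⁻¹ =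
        1 / 2000 * (m + 1 : ℂ)⁻¹ * ∑ l ∈ J, e l * (exp (-(q * θ l * I)) * F l t) := by
      intro t
      have hc : circleMap 0 1 t = exp (t * I) := by simp [circleMap]
      rw [hc, hder _ (hmem t)]
      simp only [hU, hF, hφ]
      have key : ∀ l, e l * (exp (-(q * θ l * I)) * (deriv G (exp (t * I)) * p.eval (exp (t * I)) *
          (exp (t * I) ^ L)⁻¹ * (Real.cos ((t - θ l) / 2) ^ (2 * q) : ℝ) * exp (-(i * t * I)))) =
          deriv G (exp (t * I)) * p.eval (exp (t * I)) * exp (t * I) ^ M *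
          (exp (t * I) ^ (M + L + q + i))⁻¹ *
          (e l * ((1 + exp (-(θ l * I)) * exp (t * I)) / 2) ^ (2 * q)) := by
        intro l
        have := coe_pt (θ l) t M L q i
        calc _ = deriv G (exp (t * I)) * p.eval (exp (t * I)) * e l *
              (exp (-(q * θ l * I)) * ((exp (t * I) ^ L)⁻¹ *
        (Real.cos ((t - θ l) / 2) ^ (2 * q) : ℝ) * exp (-(i * t * I)))) := by ring
          _ = _ := by rw [← this]; ring
      rw [Finset.sum_congr rfl (fun l _ => key l), ← Finset.mul_sum]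
      ring
    rw [intervalIntegral.integral_congr (fun t _ => hpt t), intervalIntegral.integral_const_mul,
      intervalIntegral.integral_finsetSum]
    · congr 1
      apply Finset.sum_congr rfl
      intro l _
      rw [intervalIntegral.integral_const_mul, intervalIntegral.integral_const_mul, hshift l]
    · intro l _
      exact (((hcF l).const_mul _).const_mul _).intervalIntegrable _ _
  rw [hidx]
  have h3 : (((M + L + q + i) + 1 : ℕ) : ℂ) * tc u ((M + L + q + i) + 1) =
      tc (deriv u) (M + L + q + i) := by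
    rw [h1]; push_cast; ring
  rw [h3, h2, hint]
  simp only [hF, hφ]
  push_cast
  ring

end Pool.Agent.Helper42.SR
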