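import Pool.Agent.Helper5.SR.St3
import Pool.Agent.Helper56.RB.SP

set_option autoImplicit false

namespace Pool.Agent.Helper42.SR

open Complex MeasureTheory Set Metric Filter Topology ComplexConjugate
open scoped Real
open Helper5.SR Pool.Agent.Helper51.LT

/-- a self map of the disc stays away from the circle -/
theorem hopf {h : ℂ → ℂ} (hd : DifferentiableOn ℂ h (ball 0 1))
    (hm : ∀ z ∈ ball (0 : ℂ) 1, ‖h z‖ < 1) :
    ∃ c : ℝ, 0 < c ∧ ∀ x ∈ ball (0 : ℂ) 1, c * (1 - ‖x‖) ≤ 1 - ‖h x‖ := by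
  have hb : ‖h 0‖ < 1 := hm 0 (by simp)
  refine ⟨(1 - ‖h 0‖) / 4, by linarith, ?_⟩
  intro x hx
  have hx1 : ‖x‖ < 1 := by simpa using hx
  have hu : ‖h x‖ < 1 := hm x hx
  have h1 := Pool.Agent.Helper56.RB.schwarz_pick hd
    (fun z hz => (hm z (by simpa using hz)).le) hx1 (w := 0) (by simp)
  rw [map_zero, zero_mul, sub_zero, norm_one, mul_one, sub_zero] at h1
  set b := h 0 with hbdef
  set u := h x with hudef
  have hid : ‖1 - conj b * u‖ ^ 2 - ‖u - b‖ ^ 2 = (1 - ‖b‖ ^ 2) * (1 - ‖u‖ ^ 2) := by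
    simp only [Complex.sq_norm, Complex.normSq_apply, sub_re, sub_im, one_re, one_im, mul_re,
      mul_im, conj_re, conj_im]
    ring
  set ρ := ‖x‖ with hρ
  have hρ0 : 0 ≤ ρ := norm_nonneg _
  set P := ‖1 - conj b * u‖ with hP
  have hb0 : 0 ≤ ‖b‖ := norm_nonneg _
  have hu0 : 0 ≤ ‖u‖ := norm_nonneg _
  have hP1 : 1 - ‖b‖ ≤ P := by
    have h2 : ‖(1 : ℂ)‖ - ‖conj b * u‖ ≤ ‖1 - conj b * u‖ := norm_sub_norm_le _ _
    rw [norm_one, norm_mul, RCLike.norm_conj] at h2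
    have h3 : ‖b‖ * ‖u‖ ≤ ‖b‖ := by nlinarith
    linarith
  have h2 : ‖u - b‖ ^ 2 ≤ ρ ^ 2 * P ^ 2 := by
    have := pow_le_pow_left₀ (norm_nonneg _) h1 2
    rwa [mul_pow] at this
  have h3 : (1 - ρ ^ 2) * P ^ 2 ≤ (1 - ‖b‖ ^ 2) * (1 - ‖u‖ ^ 2) := by linarith
  have hρ2 : 0 ≤ 1 - ρ ^ 2 := by nlinarith
  have h4 : (1 - ρ ^ 2) * (1 - ‖b‖) ^ 2 ≤ (1 - ‖b‖ ^ 2) * (1 - ‖u‖ ^ 2) := by
    refine le_trans ?_ h3
    exact mul_le_mul_of_nonneg_left (pow_le_pow_left₀ (by linarith) hP1 2) hρ2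
  have hβ : 0 < 1 - ‖b‖ := by linarith
  have h5 : (1 - ρ ^ 2) * (1 - ‖b‖) ≤ (1 + ‖b‖) * (1 - ‖u‖ ^ 2) := by
    have e1 : (1 - ρ ^ 2) * (1 - ‖b‖) ^ 2 = ((1 - ρ ^ 2) * (1 - ‖b‖)) * (1 - ‖b‖) := by ring
    have e2 : (1 - ‖b‖ ^ 2) * (1 - ‖u‖ ^ 2) = ((1 + ‖b‖) * (1 - ‖u‖ ^ 2)) * (1 - ‖b‖) := by ring
    rw [e1, e2] at h4
    exact le_of_mul_le_mul_right h4 hβ
  have h6 : (1 + ‖b‖) * (1 - ‖u‖ ^ 2) ≤ 2 * (2 * (1 - ‖u‖)) := by
    have a1 : 1 - ‖u‖ ^ 2 ≤ 2 * (1 - ‖u‖) := by nlinarith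
    have a2 : 0 ≤ 1 - ‖u‖ ^ 2 := by nlinarith
    have a3 : 1 + ‖b‖ ≤ 2 := by linarith
    exact mul_le_mul a3 a1 a2 (by norm_num)
  have h7 : (1 - ρ) * (1 - ‖b‖) ≤ (1 - ρ ^ 2) * (1 - ‖b‖) :=
    mul_le_mul_of_nonneg_right (by nlinarith) hβ.le
  nlinarith

theorem JJ_slt (ε L : ℝ) (W : ℂ) (hε : 0 < ε) (hL : 2 * √ε < L) (hW : 0 < W.re) :
    Slt (JJ ε L W) := by
  have hL0 : 0 < L := lt_of_le_of_lt (by positivity) hL
  have hW0 : W ≠ 0 := by intro h; rw [h] at hW; simp at hW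
  have hn : 0 < normSq W := normSq_pos.2 hW0
  have hre : (JJ ε L W).re = W.re * (ε / normSq W - 1) / L := by
    unfold JJ
    rw [div_ofReal_re, sub_re, div_re]
    simp
    ring
  have him : (JJ ε L W).im = -(W.im * (ε / normSq W + 1)) / L := by
    unfold JJ
    rw [div_ofReal_im, sub_im, div_im]
    simp
    ring
  by_cases h0 : (JJ ε L W).re = 0
  · right
    rw [hre, div_eq_zero_iff] at h0
    have h1 : W.re * (ε / normSq W - 1) = 0 := h0.resolve_right hL0.ne'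
    have h2 : ε / normSq W - 1 = 0 := (mul_eq_zero.1 h1).resolve_left hW.ne'
    have h3 : ε / normSq W = 1 := by linarith
    have h4 : normSq W = ε := by
      rw [div_eq_one_iff_eq hn.ne'] at h3; exact h3.symm
    rw [him, h3]
    have h5 : |W.im| ≤ √ε := by
      rw [← h4]
      apply Real.abs_le_sqrt
      rw [normSq_apply]
      nlinarith [mul_self_nonneg W.re]
    rw [abs_div, abs_neg, abs_mul, abs_of_pos hL0, div_lt_one hL0,
      abs_of_pos (by norm_num : (0 : ℝ) < 1 + 1)]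
    linarith
  · exact Or.inl h0

theorem JJ_inj (ε L : ℝ) (W W' : ℂ) (hε : 0 < ε) (hL : 0 < L) (hW : 0 < W.re) (hW' : 0 < W'.re)
    (h : JJ ε L W = JJ ε L W') : W = W' := by
  have hW0 : W ≠ 0 := by intro h; rw [h] at hW; simp at hW
  have hW0' : W' ≠ 0 := by intro h; rw [h] at hW'; simp at hW'
  have hL1 : (L : ℂ) ≠ 0 := by exact_mod_cast hL.ne'
  unfold JJ at h
  rw [div_left_inj' hL1] at h
  by_contra hne
  have h1 : (W' - W) * (ε + W * W') = 0 := by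
    field_simp at h
    linear_combination h
  have h2 : (ε : ℂ) + W * W' = 0 := by
    rcases mul_eq_zero.1 h1 with h3 | h3
    · exact absurd (sub_eq_zero.1 h3).symm hne
    · exact h3
  -- `W' = - ε / W`
  have hn : 0 < normSq W := normSq_pos.2 hW0
  have h3 : W' = -(ε / W) := by
    field_simp
    linear_combination h2
  have h4 : W'.re = -(ε * W.re / normSq W) := by
    rw [h3, neg_re, div_re]
    simp
  rw [h4] at hW'
  have : 0 < ε * W.re / normSq W := by positivity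
  linarith

theorem JJ_deriv (ε L : ℝ) (W : ℂ) (hW0 : W ≠ 0) :
    HasDerivAt (JJ ε L) ((-(ε / W ^ 2) - 1) / L) W := by
  unfold JJ
  have h1 : HasDerivAt (fun W : ℂ => (ε : ℂ) / W) (-(ε / W ^ 2)) W := by
    have h2 := (hasDerivAt_inv hW0).const_mul (ε : ℂ)
    have e : (ε : ℂ) * -(W ^ 2)⁻¹ = -(ε / W ^ 2) := by ring
    rw [e] at h2
    refine h2.congr_of_eventuallyEq (Eventually.of_forall fun w => ?_)
    simp [div_eq_mul_inv]
  exact (h1.sub (hasDerivAt_id W)).div_const (L : ℂ)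

theorem JJ_deriv_ne (ε L : ℝ) (W : ℂ) (hε : 0 < ε) (hL : 0 < L) (hW : 0 < W.re) :
    (-(ε / W ^ 2) - 1) / (L : ℂ) ≠ 0 := by
  have hW0 : W ≠ 0 := by intro h; rw [h] at hW; simp at hW
  have hL1 : (L : ℂ) ≠ 0 := by exact_mod_cast hL.ne'
  refine div_ne_zero ?_ hL1
  intro h
  have h1 : W ^ 2 = -(ε : ℂ) := by
    field_simp at h
    linear_combination -h
  have him := congrArg Complex.im h1
  have hre := congrArg Complex.re h1
  simp [pow_two] at him hre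
  have h2 : W.re * W.im = 0 := by linarith
  have h3 : W.im = 0 := (mul_eq_zero.1 h2).resolve_left hW.ne'
  rw [h3] at hre
  nlinarith

theorem hHbu (hSsf : StSsf) : StHbu := by
  intro f a θ δ κ Λ ε L hf hε hL
  obtain ⟨hUn, hf0, hinj, hlip, hκ, hder, hre, hδ, harc⟩ := hf
  obtain ⟨hS1, hS0, hSinj, _⟩ := hSsf
  have hL0 : 0 < L := lt_of_le_of_lt (by positivity) hL
  set e₀ : ℂ := f (exp (θ * I)) with he₀
  have he0re : e₀.re = a := by
    have := harc θ (by simp [hδ.le])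
    exact this
  have hWre : ∀ x ∈ ball (0 : ℂ) 1, 0 < (e₀ - f x).re := by
    intro x hx
    rw [sub_re, he0re]
    have := hre x hx
    linarith
  have hWne : ∀ x ∈ ball (0 : ℂ) 1, e₀ - f x ≠ 0 := by
    intro x hx h
    have := hWre x hx
    rw [h] at this
    simp at this
  have hslt : ∀ x ∈ ball (0 : ℂ) 1, Slt (JJ ε L (e₀ - f x)) := fun x hx =>
    JJ_slt ε L _ hε hL (hWre x hx)
  have hfd : ∀ x ∈ ball (0 : ℂ) 1, HasDerivAt f (deriv f x) x := fun x hx =>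
    (hUn.1.differentiableAt (isOpen_ball.mem_nhds hx)).hasDerivAt
  have hhd : ∀ x ∈ ball (0 : ℂ) 1, HasDerivAt (hh f θ ε L)
      (deriv SS (JJ ε L (e₀ - f x)) * ((-(ε / (e₀ - f x) ^ 2) - 1) / L * (-(deriv f x)))) x := by
    intro x hx
    have h1 : HasDerivAt (fun x => e₀ - f x) (-(deriv f x)) x := (hfd x hx).const_sub e₀
    have h2 := (JJ_deriv ε L (e₀ - f x) (hWne x hx)).comp x h1
    have h3 := ((hS1 _ (hslt x hx)).1).hasDerivAt.comp x h2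
    exact h3
  have hhdiff : DifferentiableOn ℂ (hh f θ ε L) (ball 0 1) := fun x hx =>
    (hhd x hx).differentiableAt.differentiableWithinAt
  have hlt : ∀ x ∈ ball (0 : ℂ) 1, ‖hh f θ ε L x‖ < 1 := fun x hx =>
    (hS1 _ (hslt x hx)).2.2.1
  refine ⟨⟨⟨hhdiff, ?_⟩, fun z hz => (hlt z hz).le⟩, ?_, hslt, hopf hhdiff hlt⟩
  · intro x hx y hy hxy
    have h1 : JJ ε L (e₀ - f x) = JJ ε L (e₀ - f y) := hSinj (hslt x hx) (hslt y hy) hxy
    have h2 := JJ_inj ε L _ _ hε hL0 (hWre x hx) (hWre y hy) h1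
    have h3 : f x = f y := by
      have := sub_right_inj.1 h2
      exact this
    exact hUn.2 hx hy h3
  · have h0 : (0 : ℂ) ∈ ball (0 : ℂ) 1 := by simp
    rw [(hhd 0 h0).deriv]
    refine mul_ne_zero (hS1 _ (hslt 0 h0)).2.1 (mul_ne_zero
      (JJ_deriv_ne ε L _ hε hL0 (hWre 0 h0)) (neg_ne_zero.2 ?_))
    intro h
    have := hder 0 h0
    rw [h, norm_zero] at this
    linarith

end Pool.Agent.Helper42.SR
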