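import Pool.Agent.Helper5.SR.St3

set_option autoImplicit false

namespace Pool.Agent.Helper42.SR

open Complex MeasureTheory Set Metric Filter Topology
open scoped Real
open Helper5.SR Pool.Agent.Helper51.LT

/-- the square root of `1 + Y²` -/
noncomputable def sq (Y : ℂ) : ℂ := (1 + Y ^ 2) ^ (1 / 2 : ℂ)

theorem slt_slit (Y : ℂ) (h : Slt Y) : 1 + Y ^ 2 ∈ slitPlane := by
  have hre : (1 + Y ^ 2).re = 1 + (Y.re ^ 2 - Y.im ^ 2) := by
    simp [pow_two, Complex.mul_re]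
  have him : (1 + Y ^ 2).im = 2 * (Y.re * Y.im) := by
    simp [pow_two, Complex.mul_im]; ring
  rw [mem_slitPlane_iff, hre, him]
  by_cases hr : Y.re = 0
  · left
    rcases h with h | h
    · exact absurd hr h
    · have : Y.im ^ 2 < 1 := by
        rw [sq_lt_one_iff_abs_lt_one]; exact h
      rw [hr]; nlinarith
  · by_cases hi : Y.im = 0
    · left
      have : 0 < Y.re ^ 2 := by positivity
      rw [hi]; nlinarith
    · right
      positivity

theorem sq_sq (Y : ℂ) : sq Y ^ 2 = 1 + Y ^ 2 := by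
  unfold sq
  have := Complex.cpow_nat_inv_pow (1 + Y ^ 2) (n := 2) two_ne_zero
  have e : ((1 : ℂ) / 2) = ((2 : ℕ) : ℂ)⁻¹ := by norm_num
  rw [e]
  exact this

theorem sq_re (Y : ℂ) (h : Slt Y) : 0 < (sq Y).re := by
  have hs := slt_slit Y h
  have h0 : 1 + Y ^ 2 ≠ 0 := slitPlane_ne_zero hs
  unfold sq
  rw [cpow_def_of_ne_zero h0, exp_re]
  refine mul_pos (Real.exp_pos _) ?_
  have e : (log (1 + Y ^ 2) * (1 / 2)).im = arg (1 + Y ^ 2) / 2 := by
    rw [show log (1 + Y ^ 2) * (1 / 2) = log (1 + Y ^ 2) * ((1 / 2 : ℝ) : ℂ) by push_cast; ring,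
      im_mul_ofReal, log_im]
    ring
  rw [e]
  have h1 := neg_pi_lt_arg (1 + Y ^ 2)
  have h2 := arg_le_pi (1 + Y ^ 2)
  have h3 : arg (1 + Y ^ 2) ≠ π := (mem_slitPlane_iff_arg.1 hs).1
  have h4 : arg (1 + Y ^ 2) < π := lt_of_le_of_ne h2 h3
  apply Real.cos_pos_of_mem_Ioo
  constructor <;> linarith

theorem one_add_ne (Y : ℂ) (h : Slt Y) : 1 + sq Y ≠ 0 := by
  intro h0
  have h1 := sq_re Y h
  have h2 := congrArg Complex.re h0
  simp at h2
  linarith

theorem sq_ne (Y : ℂ) (h : Slt Y) : sq Y ≠ 0 := by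
  intro h0
  have h1 := sq_re Y h
  rw [h0] at h1
  simp at h1

theorem one_le_norm (s : ℂ) (h : 0 ≤ s.re) : 1 ≤ ‖1 + s‖ := by
  have h1 : |(1 + s).re| ≤ ‖1 + s‖ := abs_re_le_norm _
  have h2 : (1 + s).re = 1 + s.re := by simp
  rw [h2, abs_of_nonneg (by linarith)] at h1
  linarith

theorem SS_eq (Y : ℂ) : SS Y = Y / (1 + sq Y) := rfl

theorem one_sub (Y : ℂ) (h : Slt Y) : 1 - SS Y ^ 2 = 2 / (1 + sq Y) := by
  have h1 := one_add_ne Y h
  rw [SS_eq, div_pow]
  have h2 : Y ^ 2 = sq Y ^ 2 - 1 := by rw [sq_sq]; ring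
  rw [h2]
  field_simp
  ring

theorem SS_rel (Y : ℂ) (h : Slt Y) : 2 * SS Y = Y * (1 - SS Y ^ 2) := by
  have h1 := one_add_ne Y h
  rw [one_sub Y h, SS_eq]
  field_simp

theorem SS_lt (Y : ℂ) (h : Slt Y) : ‖SS Y‖ < 1 := by
  have h1 := one_add_ne Y h
  have hr := sq_re Y h
  rw [SS_eq, norm_div, div_lt_one (norm_pos_iff.2 h1)]
  have h2 : ‖Y‖ ^ 2 ≤ 1 + ‖sq Y‖ ^ 2 := by
    have e : Y ^ 2 = sq Y ^ 2 - 1 := by rw [sq_sq]; ring
    calc ‖Y‖ ^ 2 = ‖Y ^ 2‖ := (norm_pow _ _).symm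
      _ = ‖sq Y ^ 2 - 1‖ := by rw [e]
      _ ≤ ‖sq Y ^ 2‖ + ‖(1 : ℂ)‖ := norm_sub_le _ _
      _ = 1 + ‖sq Y‖ ^ 2 := by rw [norm_pow, norm_one]; ring
  have h3 : ‖1 + sq Y‖ ^ 2 = 1 + 2 * (sq Y).re + ‖sq Y‖ ^ 2 := by
    rw [← normSq_eq_norm_sq, ← normSq_eq_norm_sq, normSq_apply, normSq_apply]
    simp
    ring
  have h4 : ‖Y‖ ^ 2 < ‖1 + sq Y‖ ^ 2 := by rw [h3]; linarith
  exact lt_of_pow_lt_pow_left₀ 2 (norm_nonneg _) h4

theorem hasDeriv_sq (Y : ℂ) (h : Slt Y) : HasDerivAt sq (Y / sq Y) Y := by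
  have hs := slt_slit Y h
  have h0 : 1 + Y ^ 2 ≠ 0 := slitPlane_ne_zero hs
  have hq := sq_ne Y h
  have h1 : HasDerivAt (fun Y : ℂ => 1 + Y ^ 2) (2 * Y) Y := by
    have := (hasDerivAt_pow 2 Y).const_add (1 : ℂ)
    simpa using this
  have h2 := h1.cpow_const (c := (1 / 2 : ℂ)) hs
  have e : (1 / 2 : ℂ) * (1 + Y ^ 2) ^ ((1 / 2 : ℂ) - 1) * (2 * Y) = Y / sq Y := by
    rw [cpow_sub _ _ h0, cpow_one]
    change (1 / 2 : ℂ) * (sq Y / (1 + Y ^ 2)) * (2 * Y) = Y / sq Y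
    rw [← sq_sq]
    field_simp
  rw [e] at h2
  exact h2

theorem hasDeriv_SS (Y : ℂ) (h : Slt Y) : HasDerivAt SS (1 / (sq Y * (1 + sq Y))) Y := by
  have h1 := one_add_ne Y h
  have hq := sq_ne Y h
  have h2 := (hasDerivAt_id Y).div ((hasDeriv_sq Y h).const_add 1) h1
  have e : (1 * (1 + sq Y) - id Y * (Y / sq Y)) / (1 + sq Y) ^ 2 = 1 / (sq Y * (1 + sq Y)) := by
    have h3 : Y ^ 2 = sq Y ^ 2 - 1 := by rw [sq_sq]; ring
    rw [id, show Y * (Y / sq Y) = Y ^ 2 / sq Y by ring, h3]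
    field_simp
    ring
  rw [e] at h2
  exact h2

theorem SS_inj : InjOn SS {Y | Slt Y} := by
  intro Y hY Y' hY' he
  have hY1 : Slt Y := hY
  have hY2 : Slt Y' := hY'
  have h1 := SS_rel Y hY1
  have h2 := SS_rel Y' hY2
  have hne : 1 - SS Y ^ 2 ≠ 0 := by
    rw [one_sub Y hY1]
    exact div_ne_zero two_ne_zero (one_add_ne Y hY1)
  rw [← he] at h2
  have h3 : Y * (1 - SS Y ^ 2) = Y' * (1 - SS Y ^ 2) := by rw [← h1, ← h2]
  exact mul_right_cancel₀ hne h3

theorem hSsf : StSsf := by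
  refine ⟨fun Y h => ⟨(hasDeriv_SS Y h).differentiableAt, ?_, SS_lt Y h, SS_rel Y h⟩, ?_,
    SS_inj, ?_⟩
  · rw [(hasDeriv_SS Y h).deriv]
    exact one_div_ne_zero (mul_ne_zero (sq_ne Y h) (one_add_ne Y h))
  · rw [SS_eq, zero_div]
  · intro y hy
    -- the boundary square root
    set τ : ℝ := Real.sqrt (y ^ 2 - 1) with hτ
    have hy1 : 1 < y ^ 2 := by
      have := (one_lt_sq_iff_one_lt_abs y).2 hy
      exact this
    have hτ2 : τ ^ 2 = y ^ 2 - 1 := Real.sq_sqrt (by linarith)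
    have hτ0 : 0 < τ := Real.sqrt_pos.2 (by linarith)
    obtain ⟨σ, hσ, hσy⟩ : ∃ σ : ℝ, σ ^ 2 = 1 ∧ 1 < σ * y := by
      rcases lt_abs.1 hy with h | h
      · exact ⟨1, by norm_num, by linarith⟩
      · exact ⟨-1, by norm_num, by linarith⟩
    set s₀ : ℂ := ((σ * τ : ℝ) : ℂ) * I with hs₀
    have hs₀2 : s₀ ^ 2 = 1 - (y : ℂ) ^ 2 := by
      rw [hs₀, mul_pow, I_sq]
      have : ((σ * τ : ℝ) : ℂ) ^ 2 = ((y ^ 2 - 1 : ℝ) : ℂ) := by
        rw [← ofReal_pow, mul_pow, hσ, hτ2, one_mul]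
      rw [this]; push_cast; ring
    have hre0 : s₀.re = 0 := by simp [hs₀]
    have him0 : s₀.im = σ * τ := by simp [hs₀]
    have h1s₀ : 1 ≤ ‖1 + s₀‖ := one_le_norm s₀ (by rw [hre0])
    have h1ne : 1 + s₀ ≠ 0 := by
      intro h; rw [h, norm_zero] at h1s₀; linarith
    have hn : ‖1 + s₀‖ ^ 2 = y ^ 2 := by
      rw [← normSq_eq_norm_sq, normSq_apply]
      simp only [add_re, one_re, add_im, one_im, hre0, him0]
      have : (σ * τ) * (σ * τ) = y ^ 2 - 1 := by
        rw [← hτ2, show (σ * τ) * (σ * τ) = σ ^ 2 * τ ^ 2 by ring, hσ, one_mul]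
      nlinarith
    have hn1 : ‖1 + s₀‖ = |y| := by
      have h2 : ‖1 + s₀‖ ^ 2 = |y| ^ 2 := by rw [hn, sq_abs]
      exact (sq_eq_sq₀ (norm_nonneg _) (abs_nonneg _)).1 h2
    have hyabs : 0 < |y| := by linarith
    set M : ℝ := 1 + (|y| + 1) ^ 2 with hM
    have hM1 : 1 ≤ M := by rw [hM]; nlinarith [sq_nonneg (|y| + 1)]
    set C₁ : ℝ := (1 + 2 * |y|) / τ with hC₁
    have hC₁0 : 0 < C₁ := by positivity
    refine ⟨y * I / (1 + s₀), ?_, ?_, min (1 / 2) (1 / (M * (1 + M))), 1 + |y| * C₁,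
      lt_min (by norm_num) (by positivity), by positivity, ?_⟩
    · rw [norm_div, norm_mul, norm_I, mul_one, hn1, norm_real, Real.norm_eq_abs,
        div_self hyabs.ne']
    · have h2 : ((y : ℂ) * I) ^ 2 = s₀ ^ 2 - 1 := by
        rw [hs₀2, mul_pow, I_sq]; ring
      rw [div_pow, h2]
      field_simp
      ring
    · intro Y hY hc
      have hc1 : ‖Y - y * I‖ ≤ 1 / 2 := hc.trans (min_le_left _ _)
      have hSlt : Slt Y := Or.inl hY.ne'
      have hsre := sq_re Y hSlt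
      have hss := sq_sq Y
      -- the sign of the imaginary part
      have himY : |Y.im - y| ≤ 1 / 2 := by
        have h1 : |(Y - y * I).im| ≤ ‖Y - y * I‖ := abs_im_le_norm _
        have h2 : (Y - y * I).im = Y.im - y := by simp
        rw [h2] at h1
        exact h1.trans hc1
      have hσabs : |σ| = 1 := by
        have : |σ| ^ 2 = 1 ^ 2 := by rw [sq_abs, hσ]; norm_num
        exact (sq_eq_sq₀ (abs_nonneg _) zero_le_one).1 this
      have hsY : 0 < σ * Y.im := by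
        have h1 : |σ * (Y.im - y)| ≤ 1 / 2 := by rw [abs_mul, hσabs, one_mul]; exact himY
        have h2 := (abs_le.1 h1).1
        nlinarith
      have him2 : 2 * ((sq Y).re * (sq Y).im) = 2 * (Y.re * Y.im) := by
        have h1 := congrArg Complex.im hss
        have e1 : (sq Y ^ 2).im = 2 * ((sq Y).re * (sq Y).im) := by
          simp [pow_two, Complex.mul_im]; ring
        have e2 : (1 + Y ^ 2).im = 2 * (Y.re * Y.im) := by
          simp [pow_two, Complex.mul_im]; ring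
        rw [e1, e2] at h1
        exact h1
      have hsim : 0 < σ * (sq Y).im := by
        have h1 : (sq Y).re * (σ * (sq Y).im) = Y.re * (σ * Y.im) := by
          have : (sq Y).re * (sq Y).im = Y.re * Y.im := by linarith
          calc (sq Y).re * (σ * (sq Y).im) = σ * ((sq Y).re * (sq Y).im) := by ring
            _ = Y.re * (σ * Y.im) := by rw [this]; ring
        have h2 : 0 < (sq Y).re * (σ * (sq Y).im) := by rw [h1]; exact mul_pos hY hsY
        exact (pos_iff_pos_of_mul_pos h2).1 hsre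
      have hplus : τ ≤ ‖sq Y + s₀‖ := by
        have h1 : |(sq Y + s₀).im| ≤ ‖sq Y + s₀‖ := abs_im_le_norm _
        have h2 : (sq Y + s₀).im = (sq Y).im + σ * τ := by rw [add_im, him0]
        have h3 : τ ≤ σ * ((sq Y).im + σ * τ) := by
          have : σ * ((sq Y).im + σ * τ) = σ * (sq Y).im + σ ^ 2 * τ := by ring
          rw [this, hσ]; linarith
        have h4 : σ * ((sq Y).im + σ * τ) ≤ |(sq Y).im + σ * τ| := by
          calc σ * ((sq Y).im + σ * τ) ≤ |σ * ((sq Y).im + σ * τ)| := le_abs_self _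
            _ = |(sq Y).im + σ * τ| := by rw [abs_mul, hσabs, one_mul]
        rw [h2] at h1
        linarith
      have hdiff : ‖sq Y - s₀‖ ≤ C₁ * ‖Y - y * I‖ := by
        have h1 : (sq Y - s₀) * (sq Y + s₀) = (Y - y * I) * (Y + y * I) := by
          have e1 : (sq Y - s₀) * (sq Y + s₀) = sq Y ^ 2 - s₀ ^ 2 := by ring
          have e2 : (Y - y * I) * (Y + y * I) = Y ^ 2 - (y : ℂ) ^ 2 * I ^ 2 := by ring
          rw [e1, e2, hss, hs₀2, I_sq]; ring
        have h2 : ‖sq Y - s₀‖ * ‖sq Y + s₀‖ = ‖Y - y * I‖ * ‖Y + y * I‖ := by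
          rw [← norm_mul, ← norm_mul, h1]
        have h3 : ‖Y + y * I‖ ≤ 1 + 2 * |y| := by
          have e : Y + y * I = (Y - y * I) + ((2 * y : ℝ) : ℂ) * I := by push_cast; ring
          rw [e]
          refine (norm_add_le _ _).trans ?_
          rw [norm_mul, norm_I, mul_one, norm_real, Real.norm_eq_abs, abs_mul,
            abs_of_nonneg (by norm_num : (0 : ℝ) ≤ 2)]
          linarith
        have h4 : ‖sq Y - s₀‖ * τ ≤ ‖Y - y * I‖ * (1 + 2 * |y|) := by
          calc ‖sq Y - s₀‖ * τ ≤ ‖sq Y - s₀‖ * ‖sq Y + s₀‖ :=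
                mul_le_mul_of_nonneg_left hplus (norm_nonneg _)
            _ = ‖Y - y * I‖ * ‖Y + y * I‖ := h2
            _ ≤ _ := mul_le_mul_of_nonneg_left h3 (norm_nonneg _)
        rw [hC₁, div_mul_eq_mul_div, le_div_iff₀ hτ0]
        linarith
      have h1s : 1 ≤ ‖1 + sq Y‖ := one_le_norm _ hsre.le
      have hne := one_add_ne Y hSlt
      constructor
      · have e : SS Y - y * I / (1 + s₀) =
            (Y - y * I) / (1 + sq Y) + y * I * (s₀ - sq Y) / ((1 + sq Y) * (1 + s₀)) := by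
          rw [SS_eq]
          field_simp
          ring
        rw [e]
        refine (norm_add_le _ _).trans ?_
        have a1 : ‖(Y - y * I) / (1 + sq Y)‖ ≤ ‖Y - y * I‖ := by
          rw [norm_div]
          exact div_le_self (norm_nonneg _) h1s
        have a2 : ‖y * I * (s₀ - sq Y) / ((1 + sq Y) * (1 + s₀))‖ ≤ |y| * (C₁ * ‖Y - y * I‖) := by
          rw [norm_div, norm_mul, norm_mul, norm_mul, norm_I, mul_one, norm_real,
            Real.norm_eq_abs, norm_sub_rev]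
          have h5 : 1 ≤ ‖1 + sq Y‖ * ‖1 + s₀‖ := one_le_mul_of_one_le_of_one_le h1s h1s₀
          exact (div_le_self (by positivity) h5).trans
            (mul_le_mul_of_nonneg_left hdiff (abs_nonneg _))
        calc _ ≤ ‖Y - y * I‖ + |y| * (C₁ * ‖Y - y * I‖) := add_le_add a1 a2
          _ = (1 + |y| * C₁) * ‖Y - y * I‖ := by ring
      · refine (min_le_right _ _).trans ?_
        rw [(hasDeriv_SS Y hSlt).deriv, norm_div, norm_one, norm_mul]
        have hnY : ‖Y‖ ≤ |y| + 1 := by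
          have e : Y = (Y - y * I) + y * I := by ring
          rw [e]
          refine (norm_add_le _ _).trans ?_
          rw [norm_mul, norm_I, mul_one, norm_real, Real.norm_eq_abs]
          linarith
        have hs2 : ‖sq Y‖ ^ 2 ≤ M := by
          rw [← norm_pow, hss]
          refine (norm_add_le _ _).trans ?_
          rw [norm_one, norm_pow, hM]
          have := pow_le_pow_left₀ (norm_nonneg _) hnY 2
          linarith
        have hs1 : ‖sq Y‖ ≤ M := by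
          by_contra hcon
          push Not at hcon
          have : M < ‖sq Y‖ ^ 2 := by nlinarith [norm_nonneg (sq Y)]
          linarith
        have hs3 : ‖1 + sq Y‖ ≤ 1 + M := by
          refine (norm_add_le _ _).trans ?_
          rw [norm_one]; linarith
        have hpos : 0 < ‖sq Y‖ * ‖1 + sq Y‖ :=
          mul_pos (norm_pos_iff.2 (sq_ne Y hSlt)) (norm_pos_iff.2 hne)
        exact one_div_le_one_div_of_le hpos
          (mul_le_mul hs1 hs3 (norm_nonneg _) (by linarith))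

end Pool.Agent.Helper42.SR
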