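import Pool.Agent.Helper5.SR.St4

set_option autoImplicit false

namespace Pool.Agent.Helper42.SR

open Complex MeasureTheory Set Metric Filter Topology
open scoped Real
open Helper5.SR Pool.Agent.Helper51.LT
open Pool.Agent.Helper60.Rel (LH tc)

theorem zon_mono (A D I₀ : ℝ) (g F : ℝ → ℝ) (hD : 0 ≤ D) (hA : 0 ≤ A) (h0 : 0 < I₀)
    (hI : I₀ ≤ ∫ τ in (-D)..D, g τ) (hF : Continuous F) (hpt : ∀ τ, A * g τ ≤ F τ) :
    A * I₀ ≤ ∫ τ in (-D)..D, F τ := by
  have hg : IntervalIntegrable g volume (-D) D := by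
    by_contra hn
    rw [intervalIntegral.integral_undef hn] at hI
    linarith
  calc A * I₀ ≤ A * ∫ τ in (-D)..D, g τ := mul_le_mul_of_nonneg_left hI hA
    _ = ∫ τ in (-D)..D, A * g τ := by rw [intervalIntegral.integral_const_mul]
    _ ≤ _ := intervalIntegral.integral_mono_on (by linarith) (hg.const_mul A)
        (hF.intervalIntegrable _ _) (fun τ _ => hpt τ)

theorem zon_large (A B q s : ℝ) (hq : 1 < q) (hs : 0 < s) :
    ∃ k₀ : ℕ, ∀ k : ℕ, k₀ ≤ k → A + B * k ≤ (q ^ k) ^ (s / 2) := by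
  have hlq : 0 < Real.log q := Real.log_pos hq
  set c : ℝ := Real.log q * (s / 2) with hc
  have hc0 : 0 < c := by positivity
  obtain ⟨k₀, hk₀⟩ := exists_nat_ge (2 * (|A| + |B|) / c ^ 2 + 1)
  refine ⟨k₀, fun k hk => ?_⟩
  have hkr : 2 * (|A| + |B|) / c ^ 2 + 1 ≤ (k : ℝ) := hk₀.trans (by exact_mod_cast hk)
  have hnn : 0 ≤ 2 * (|A| + |B|) / c ^ 2 := by positivity
  have hk1 : (1 : ℝ) ≤ k := by linarith
  have h1 : (q ^ k) ^ (s / 2) = Real.exp (k * c) := by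
    rw [← Real.rpow_natCast, ← Real.rpow_mul (by linarith), Real.rpow_def_of_pos (by linarith)]
    congr 1
    rw [hc]; ring
  have h2 : (k * c) ^ 2 / 2 ≤ Real.exp (k * c) := by
    have := Real.quadratic_le_exp_of_nonneg (x := k * c) (by positivity)
    nlinarith [mul_pos (lt_of_lt_of_le one_pos hk1) hc0]
  have h3 : 2 * (|A| + |B|) ≤ k * c ^ 2 := by
    have : 2 * (|A| + |B|) / c ^ 2 ≤ k := by linarith
    rwa [div_le_iff₀ (by positivity)] at this
  rw [h1]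
  have hA := le_abs_self A
  have hB := le_abs_self B
  have hAn := abs_nonneg A
  have hBn := abs_nonneg B
  calc A + B * k ≤ |A| + |B| * k := by
        have := mul_le_mul_of_nonneg_right hB (by linarith : (0 : ℝ) ≤ k)
        linarith
    _ ≤ (|A| + |B|) * k := by nlinarith
    _ ≤ (k * c) ^ 2 / 2 := by
        have := mul_le_mul_of_nonneg_right h3 (by linarith : (0 : ℝ) ≤ k)
        nlinarith
    _ ≤ _ := h2

theorem hZon (hZpt : StZpt) (hTw1 : StTw1) (hTw4 : StTw4) : StZon := by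
  intro C hC
  obtain ⟨Q₁, hQ₁, hZ⟩ := hZpt C hC
  refine ⟨Q₁, hQ₁, ?_⟩
  intro κ β Q Φ hQ hTM M h θ₀ ξ₀ c₀ C₀ s hAtm hs hs1
  obtain ⟨c, k₀, hc, hk₀⟩ := hZ κ β Q Φ hQ hTM M h θ₀ ξ₀ c₀ C₀ s hAtm hs hs1
  have hQ2 : 2 ≤ Q := hQ₁.trans hQ
  have hQr : (2 : ℝ) ≤ Q := by exact_mod_cast hQ2
  have hQ0 : (0 : ℝ) < Q := by linarith
  have hM : 1 ≤ M := hAtm.1
  have hMr : (1 : ℝ) ≤ M := by exact_mod_cast hM
  have hM0 : (0 : ℝ) < M := by linarith
  have hlQ : 0 < Real.log Q := Real.log_pos (by linarith)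
  have hpi := Real.pi_pos
  obtain ⟨k₁, hk₁⟩ := zon_large ((2 * C + 20) * Q) (30 * Real.log Q * Q) Q s (by linarith) hs
  refine ⟨c * (2 * π) / M * (Q : ℝ) ^ (-|β|), max k₀ k₁, by positivity, ?_⟩
  intro k hk K φ hK hφ
  have hkk0 := hk₀ k ((le_max_left _ _).trans hk) K φ hK hφ
  have hkk1 := hk₁ k ((le_max_right _ _).trans hk)
  obtain ⟨hφU, hφ0, hφle, -⟩ := hφ
  obtain ⟨-, hh, -, -, hc0, -, -, hbd⟩ := hAtm
  set a : ℕ := ⌊s * k⌋₊ with ha
  have hk0r : (0 : ℝ) ≤ k := Nat.cast_nonneg k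
  have ha1 : (a : ℝ) ≤ s * k := Nat.floor_le (by positivity)
  have ha2 : s * k < a + 1 := Nat.lt_floor_add_one _
  have hak : a ≤ k := by
    have : (a : ℝ) ≤ k := ha1.trans (by nlinarith)
    exact_mod_cast this
  have hkar : ((k - a : ℕ) : ℝ) = k - a := by push_cast [Nat.cast_sub hak]; ring
  set N : ℝ := (Q : ℝ) ^ k with hN
  have hN0 : 0 < N := by positivity
  set D : ℝ := 2 * C + 20 + 30 * ((k - a : ℕ) : ℝ) * Real.log Q with hD
  have hD0 : 0 ≤ D := by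
    have : (0 : ℝ) ≤ ((k - a : ℕ) : ℝ) := Nat.cast_nonneg _
    positivity
  have hTw := hTw4 C κ β Q Φ hC hQ2 hTM (k - a) D hD
  -- the integrand
  set f : ℝ → ℝ := fun ω => ‖deriv (fun z => K (h (φ z))) (exp (-(((N⁻¹) / M : ℝ) : ℂ) + ω * I))‖
    with hf
  have hmem : ∀ ω : ℝ, exp (-(((N⁻¹) / M : ℝ) : ℂ) + ω * I) ∈ ball (0 : ℂ) 1 := by
    intro ω
    rw [mem_ball_zero_iff, Complex.norm_exp]
    have : (-(((N⁻¹) / M : ℝ) : ℂ) + ω * I).re = -((N⁻¹) / M) := by simp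
    rw [this]
    have : 0 < N⁻¹ / M := by positivity
    rw [← Real.exp_zero]
    exact Real.exp_lt_exp.mpr (by linarith)
  have hφm : MapsTo φ (ball 0 1) (ball 0 1) := by
    intro z hz
    rw [mem_ball_zero_iff] at hz ⊢
    exact (hφle z (by simpa using hz)).trans_lt hz
  have hhm : MapsTo h (ball 0 1) (ball 0 1) := by
    intro z hz
    have h1 := hbd z hz
    rw [mem_ball_zero_iff] at hz ⊢
    nlinarith [mul_pos hc0 (sub_pos.mpr hz)]
  have hcomp : DifferentiableOn ℂ (fun z => K (h (φ z))) (ball 0 1) :=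
    hK.1.comp (hh.1.1.comp hφU.1.1 hφm) (fun z hz => hhm (hφm hz))
  have hcd : ContinuousOn (deriv (fun z => K (h (φ z)))) (ball 0 1) :=
    (hcomp.deriv isOpen_ball).continuousOn
  have hfc : Continuous f := by
    apply Continuous.norm
    apply hcd.comp_continuous _ hmem
    fun_prop
  have hf0 : ∀ ω, 0 ≤ f ω := fun ω => norm_nonneg _
  -- abbreviations
  set X : ℝ := ‖deriv K (((1 - N ^ (-s) : ℝ) : ℂ) * ξ₀)‖ * N ^ (-s) with hX
  have hX0 : 0 ≤ X := by positivity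
  have hC0 : 0 < C := by linarith
  set P : ℝ := c * ((C ^ k) ^ 4)⁻¹ with hP
  have hP0 : 0 < P := by positivity
  set A : ℝ := P * (Q : ℝ) ^ a * X with hA
  have hA0 : 0 ≤ A := by positivity
  have hQa : (0 : ℝ) < (Q : ℝ) ^ a := by positivity
  set w : ℝ := M * (Q : ℝ) ^ a with hw
  have hw0 : 0 < w := by positivity
  have hFc : Continuous (fun τ : ℝ => f (θ₀ + τ / w)) := by
    apply hfc.comp
    fun_prop
  have hmono : A * (2 * π * ((Q : ℝ) ^ β) ^ (k - a)) ≤ ∫ τ in (-D)..D, f (θ₀ + τ / w) := by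
    refine zon_mono A D _ _ _ hD0 hA0 (by positivity) hTw hFc ?_
    intro τ
    split_ifs with hcond
    · have := hkk0 τ hcond.1 hcond.2.1 hcond.2.2
      rw [hA, hf]
      exact this
    · rw [mul_zero]
      exact hf0 _
  have hsub : ∫ τ in (-D)..D, f (θ₀ + τ / w) = w * ∫ ω in (θ₀ - D / w)..(θ₀ + D / w), f ω := by
    rw [intervalIntegral.integral_comp_add_div f hw0.ne']
    rw [smul_eq_mul]
    congr 2
    ring
  -- size of the radius
  have hrad : D / w ≤ N ^ (-(s / 2)) := by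
    rw [div_le_iff₀ hw0]
    have h1 : N ^ s ≤ Q * (Q : ℝ) ^ a := by
      have e1 : N ^ s = (Q : ℝ) ^ (s * k) := by
        rw [hN, ← Real.rpow_natCast, ← Real.rpow_mul hQ0.le]; congr 1; ring
      have e2 : Q * (Q : ℝ) ^ a = (Q : ℝ) ^ ((a : ℝ) + 1) := by
        rw [Real.rpow_add hQ0, Real.rpow_one, Real.rpow_natCast]; ring
      rw [e1, e2]
      exact Real.rpow_le_rpow_of_exponent_le (by linarith) ha2.le
    have h2 : N ^ (-(s / 2)) * N ^ s = N ^ (s / 2) := by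
      rw [← Real.rpow_add hN0]; congr 1; ring
    have h3 : D * Q ≤ N ^ (s / 2) := by
      refine le_trans ?_ hkk1
      rw [hD, hkar]
      have : (k : ℝ) - a ≤ k := by
        have : (0 : ℝ) ≤ a := Nat.cast_nonneg a
        linarith
      have h4 : 30 * ((k : ℝ) - a) * Real.log Q * Q ≤ 30 * k * Real.log Q * Q := by
        gcongr
      linarith
    have h5 : N ^ (s / 2) ≤ (N ^ (-(s / 2)) * (Q : ℝ) ^ a) * Q := by
      rw [← h2]
      have := mul_le_mul_of_nonneg_left h1 (Real.rpow_nonneg hN0.le (-(s / 2)))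
      linarith
    have h6 : D ≤ N ^ (-(s / 2)) * (Q : ℝ) ^ a := by
      have := h3.trans h5
      exact le_of_mul_le_mul_right this hQ0
    refine h6.trans ?_
    rw [hw]
    have hn : 0 ≤ N ^ (-(s / 2)) * (Q : ℝ) ^ a := by positivity
    nlinarith
  have hDw : 0 ≤ D / w := by positivity
  have hrest : ∫ ω in (θ₀ - D / w)..(θ₀ + D / w), f ω ≤
      ∫ ω in (θ₀ - N ^ (-(s / 2)))..(θ₀ + N ^ (-(s / 2))), f ω := by
    apply intervalIntegral.integral_mono_interval (by linarith) (by linarith) (by linarith)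
    · exact Filter.Eventually.of_forall hf0
    · exact hfc.intervalIntegrable _ _
  -- the exponent
  have hexp : (Q : ℝ) ^ (-|β|) * N ^ (β * (1 - s)) ≤ ((Q : ℝ) ^ β) ^ (k - a) := by
    have e1 : ((Q : ℝ) ^ β) ^ (k - a) = (Q : ℝ) ^ (β * (k - a)) := by
      rw [← Real.rpow_natCast, ← Real.rpow_mul hQ0.le, hkar]
    have e2 : (Q : ℝ) ^ (-|β|) * N ^ (β * (1 - s)) = (Q : ℝ) ^ (-|β| + k * (β * (1 - s))) := by
      rw [hN, ← Real.rpow_natCast, ← Real.rpow_mul hQ0.le, Real.rpow_add hQ0]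
    rw [e1, e2]
    apply Real.rpow_le_rpow_of_exponent_le (by linarith)
    have h1 : |β * (s * k - a)| ≤ |β| := by
      rw [abs_mul]
      have : |s * k - a| ≤ 1 := by rw [abs_le]; constructor <;> linarith
      have hb := abs_nonneg β
      nlinarith
    have h2 := neg_abs_le (β * (s * k - a))
    nlinarith
  have hfin : w * (∫ ω in (θ₀ - D / w)..(θ₀ + D / w), f ω) ≥ w * (P * X * (2 * π) / M *
      ((Q : ℝ) ^ β) ^ (k - a)) := by
    rw [← hsub]
    refine le_trans (le_of_eq ?_) hmono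
    rw [hA, hw]
    field_simp
  have hfin2 := le_of_mul_le_mul_left hfin hw0
  refine le_trans ?_ (hfin2.trans hrest)
  have hk2 : 0 ≤ P * X * (2 * π) / M := by positivity
  calc c * (2 * π) / M * (Q : ℝ) ^ (-|β|) * ((C ^ k) ^ 4)⁻¹ * X * N ^ (β * (1 - s))
      = P * X * (2 * π) / M * ((Q : ℝ) ^ (-|β|) * N ^ (β * (1 - s))) := by rw [hP]; ring
    _ ≤ _ := mul_le_mul_of_nonneg_left hexp hk2

end Pool.Agent.Helper42.SR
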